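import Pool.Agent.GLB.Main
import Pool.Agent.GLB.Stmt

/-!
# MP_150b4b_gt: the globalization map for area measures is surjective in degree one
-/

set_option autoImplicit false

open Pool.Agent Metric Set Filter Topology
open Pool.Agent.GLB.Stmt

namespace Pool.Agent.Results.MP_150b4b_gt.DegreeOne

lemma act_eq {n : ℕ} (g : (GLB.E n →L[ℝ] GLB.E n)ˣ) (φ : C(GLB.S n, ℂ)) :
    GLB.act g φ = (GLV.act (V := GLB.E n) g φ : C(GLB.S n, ℂ)) := by
  apply ContinuousMap.ext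
  intro v
  exact Complex.real_smul

lemma norm_le_one {n : ℕ} (φ : C(GLB.S n, ℂ)) (h : ∀ u, ‖φ u‖ ≤ 1) : ‖φ‖ ≤ 1 :=
  (ContinuousMap.norm_le φ zero_le_one).2 h

/-- For every `n ≥ 2` the map `glob : Area_1(ℝ^n) → Val_1(ℝ^n, ℂ)` is surjective, even on the
strongly `GL(n, ℝ)`-continuous elements of `Area_1(ℝ^n)`. -/
theorem result : ∀ n : ℕ, 2 ≤ n → ∀ μ : Body (EuclideanSpace ℝ (Fin n)) → ℂ, IsVal 1 μ →
    ∃ Ψ : Body (EuclideanSpace ℝ (Fin n)) → Meas (EuclideanSpace ℝ (Fin n)),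
      IsArea 1 Ψ ∧ StrongGL Ψ ∧ ∀ K, (Ψ K).mass = μ K := by
  intro n hn μ h
  have hμ : GLB.IsVal n 1 μ := ⟨h.cont, h.trans, h.homog, h.val⟩
  obtain ⟨Ψ, hA, hG, hm⟩ := GLB.main n hn μ hμ
  refine ⟨Ψ, ⟨hA.cont, hA.loc, hA.trans, ?_⟩, ?_, ?_⟩
  · intro K t ht φ
    have h1 := hA.homog K t ht
    exact congrArg (fun T : C(GLB.S n, ℂ) →L[ℂ] ℂ => T φ) h1
  · intro g₀ ε hε
    have h1 := hG g₀ ε hε
    refine Filter.Eventually.mono h1 ?_
    intro g hg K hK φ hφ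
    have h2 := hg K hK φ (norm_le_one φ hφ)
    rw [act_eq, act_eq] at h2
    exact h2
  · intro K
    exact hm K

end Pool.Agent.Results.MP_150b4b_gt.DegreeOne
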