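import Pool.Agent.GNS.Main
import Pool.Agent.GNS.Final

/-!
# MP_150b4b_gt: the globalization map for area measures is not surjective in degrees
`2 ≤ k ≤ n - 3`
-/

set_option autoImplicit false

open Pool.Agent Metric Set Filter Topology
open Pool.Agent.GLB.Stmt

namespace Pool.Agent.Results.MP_150b4b_gt.NotSurjective

/-- For all `n` and `k` with `2 ≤ k ≤ n - 3` the map `glob : Area_k(ℝ^n) → Val_k(ℝ^n, ℂ)` is not
surjective: there is `μ` in `Val_k(ℝ^n, ℂ)` which is not the globalization of any `Ψ` in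
`Area_k(ℝ^n)`. -/
theorem result : ∀ n k : ℕ, 2 ≤ k → k + 3 ≤ n →
    ∃ μ : Body (EuclideanSpace ℝ (Fin n)) → ℂ, IsVal k μ ∧
      ∀ Ψ : Body (EuclideanSpace ℝ (Fin n)) → Meas (EuclideanSpace ℝ (Fin n)), IsArea k Ψ →
        ∃ K, (Ψ K).mass ≠ μ K :=
  GNS.final (GNS.m_ALL GNS.m_FIN)

end Pool.Agent.Results.MP_150b4b_gt.NotSurjective
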